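import Pool.Agent.W952.LP.Stm

/-!
# Arcs and bundles of the space
-/

set_option autoImplicit false

namespace Pool.Agent.W371.LP

open Pool.Agent.W952.LP

theorem reach_icc (G : Gd) (g : ℕ) : ∃ r : ℝ, 0 ≤ r ∧ {y : ℝ | G.Reach g y} = Set.Icc 0 r := by
  classical
  by_cases hC : G.Complete g
  · refine ⟨1, zero_le_one, ?_⟩
    ext y
    constructor
    · rintro ⟨h0, h1, -⟩
      exact ⟨h0, h1⟩
    · rintro ⟨h0, h1⟩
      exact ⟨h0, h1, Or.inl hC⟩
  · have hC' : ∃ b1, ∀ c, ¬ G.T g b1 c = true := by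
      by_contra hcon
      push Not at hcon
      exact hC hcon
    obtain ⟨b1, hb1⟩ := hC'
    have hle : ∀ b0, G.Good g b0 → b0 ≤ b1 := by
      intro b0 h0
      by_contra hlt
      obtain ⟨c, hc⟩ := h0 b1 (by omega)
      exact hb1 c hc
    have h0 : G.Good g 0 := fun b hb => absurd hb (Nat.not_lt_zero b)
    set B := Nat.findGreatest (G.Good g) b1 with hB
    have hBg : G.Good g B := Nat.findGreatest_spec (P := G.Good g) (Nat.zero_le b1) h0
    have hBm : ∀ b0, G.Good g b0 → b0 ≤ B := fun b0 h => Nat.le_findGreatest (hle b0 h) h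
    refine ⟨1 - (1 / 2 : ℝ) ^ B, ?_, ?_⟩
    · have : (1 / 2 : ℝ) ^ B ≤ 1 := pow_le_one₀ (by norm_num) (by norm_num)
      linarith
    · ext y
      constructor
      · rintro ⟨hy0, hy1, h | ⟨b0, hb0, hy⟩⟩
        · exact absurd h hC
        · refine ⟨hy0, hy.trans ?_⟩
          have : (1 / 2 : ℝ) ^ B ≤ (1 / 2 : ℝ) ^ b0 :=
            pow_le_pow_of_le_one (by norm_num) (by norm_num) (hBm b0 hb0)
          linarith
      · rintro ⟨hy0, hy1⟩
        refine ⟨hy0, hy1.trans ?_, Or.inr ⟨B, hBg, hy1⟩⟩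
        have : (0 : ℝ) ≤ (1 / 2 : ℝ) ^ B := by positivity
        linarith

theorem sep {g h : ℕ} (H : |(1 / 2 : ℝ) ^ h - (1 / 2 : ℝ) ^ g| < (1 / 2 : ℝ) ^ (g + 1)) : h = g := by
  rw [abs_lt] at H
  have e1 : (1 / 2 : ℝ) ^ (g + 1) = (1 / 2 : ℝ) ^ g / 2 := by rw [pow_succ]; ring
  have hp : (0 : ℝ) < (1 / 2 : ℝ) ^ g := by positivity
  rcases lt_trichotomy h g with hlt | heq | hgt
  · have h1 : (1 / 2 : ℝ) ^ g ≤ (1 / 2 : ℝ) ^ (h + 1) :=
      pow_le_pow_of_le_one (by norm_num) (by norm_num) hlt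
    have e2 : (1 / 2 : ℝ) ^ (h + 1) = (1 / 2 : ℝ) ^ h / 2 := by rw [pow_succ]; ring
    exfalso
    linarith [H.2]
  · exact heq
  · have h1 : (1 / 2 : ℝ) ^ h ≤ (1 / 2 : ℝ) ^ (g + 1) :=
      pow_le_pow_of_le_one (by norm_num) (by norm_num) hgt
    exfalso
    linarith [H.1]

theorem pt_cont (G : Gd) (g i : ℕ) : Continuous (G.pt g i) := by
  unfold Gd.pt
  fun_prop

theorem eps_pos (G : Gd) (g : ℕ) : 0 < G.eps g := by
  unfold Gd.eps
  positivity

theorem arcC : S_arcC := by
  intro G g i a b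
  obtain ⟨r, hr, hR⟩ := reach_icc G g
  have he : G.arcC g i a b = (G.pt g i) '' (Set.Icc (max a 0) (min b r)) := by
    ext p
    constructor
    · rintro ⟨y, ha, hb, hy, rfl⟩
      have hy' : y ∈ Set.Icc 0 r := by rw [← hR]; exact hy
      exact ⟨y, ⟨max_le ha hy'.1, le_min hb hy'.2⟩, rfl⟩
    · rintro ⟨y, ⟨h1, h2⟩, rfl⟩
      have hy' : y ∈ {y : ℝ | G.Reach g y} := by
        rw [hR]
        exact ⟨(le_max_right _ _).trans h1, h2.trans (min_le_right _ _)⟩
      exact ⟨y, (le_max_left _ _).trans h1, h2.trans (min_le_left _ _), hy', rfl⟩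
  rw [he]
  exact ⟨isCompact_Icc.image (pt_cont G g i), isPreconnected_Icc.image _ (pt_cont G g i).continuousOn⟩

theorem bun : S_bun := by
  intro G g
  have hsub : G.bun g ⊆ G.Sp := by
    rintro p ⟨i, y, hi, hy, hR, rfl⟩
    exact Or.inr ⟨g, i, y, hi, hR, rfl⟩
  refine ⟨hsub, ⟨{p | |p.1 - (1 / 2 : ℝ) ^ g| < (1 / 2 : ℝ) ^ (g + 1) ∧ 0 < p.2.1}, ?_, ?_⟩, ?_⟩
  · have o1 : IsOpen {p : ℝ × ℝ × ℝ | |p.1 - (1 / 2 : ℝ) ^ g| < (1 / 2 : ℝ) ^ (g + 1)} :=
      isOpen_lt (by fun_prop) (by fun_prop)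
    have o2 : IsOpen {p : ℝ × ℝ × ℝ | 0 < p.2.1} := isOpen_lt (by fun_prop) (by fun_prop)
    exact o1.inter o2
  · ext p
    constructor
    · rintro ⟨⟨h1, h2⟩, h | ⟨h, i, y, hi, hR, hp⟩⟩
      · obtain ⟨x, -, -, rfl⟩ := h
        exact absurd h2 (lt_irrefl _)
      · subst hp
        have hg : h = g := sep h1
        subst hg
        refine ⟨i, y, hi, ?_, hR, rfl⟩
        exact pos_of_mul_pos_right h2 (eps_pos G h).le
    · intro hp
      refine ⟨?_, hsub hp⟩
      obtain ⟨i, y, hi, hy, hR, rfl⟩ := hp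
      refine ⟨?_, ?_⟩
      · simp only [Gd.pt, sub_self, abs_zero]
        positivity
      · exact mul_pos (eps_pos G g) hy
  · obtain ⟨r, hr, hR⟩ := reach_icc G g
    have he : G.bun g ∪ {((1 / 2 : ℝ) ^ g, 0, 0)} =
        (⋃ i ∈ Finset.range (G.nn g), (G.pt g i) '' (Set.Icc 0 r)) ∪ {((1 / 2 : ℝ) ^ g, 0, 0)} := by
      ext p
      constructor
      · rintro (⟨i, y, hi, hy, hRy, rfl⟩ | h)
        · left
          rw [Set.mem_iUnion₂]
          refine ⟨i, Finset.mem_range.2 hi, y, ?_, rfl⟩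
          rw [← hR]
          exact hRy
        · exact Or.inr h
      · rintro (h | h)
        · rw [Set.mem_iUnion₂] at h
          obtain ⟨i, hi, y, hy, rfl⟩ := h
          have hRy : G.Reach g y := by
            have : y ∈ {y : ℝ | G.Reach g y} := by rw [hR]; exact hy
            exact this
          rcases hy.1.lt_or_eq with h0 | h0
          · exact Or.inl ⟨i, y, Finset.mem_range.1 hi, h0, hRy, rfl⟩
          · right
            subst h0
            simp [Gd.pt]
        · exact Or.inr h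
    rw [he]
    apply IsClosed.union _ isClosed_singleton
    apply IsCompact.isClosed
    apply (Finset.range (G.nn g)).isCompact_biUnion
    intro i _
    exact isCompact_Icc.image (pt_cont G g i)

theorem arcO : S_arcO := by
  intro G g i a b hi
  set e := G.eps g with he
  have hepos : 0 < e := eps_pos G g
  refine ⟨{p | |p.1 - (1 / 2 : ℝ) ^ g| < (1 / 2 : ℝ) ^ (g + 1)} ∩
    ({p | e * a < p.2.1} ∩ ({p | p.2.1 < e * b} ∩ ({p | 0 < p.2.1} ∩ ({p | p.2.1 < e} ∩
      {p | |p.2.2 * e - i * (p.2.1 * (e - p.2.1))| < (1 / 2) * (p.2.1 * (e - p.2.1))})))), ?_, ?_⟩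
  · refine (isOpen_lt (by fun_prop) (by fun_prop)).inter
      ((isOpen_lt (by fun_prop) (by fun_prop)).inter
      ((isOpen_lt (by fun_prop) (by fun_prop)).inter
      ((isOpen_lt (by fun_prop) (by fun_prop)).inter
      ((isOpen_lt (by fun_prop) (by fun_prop)).inter
      (isOpen_lt (by fun_prop) (by fun_prop))))))
  · ext p
    constructor
    · rintro ⟨⟨h1, h2, h3, h4, h5, h6⟩, h | ⟨h, j, y, hj, hR, hp⟩⟩
      · obtain ⟨x, -, -, rfl⟩ := h
        exact absurd h4 (lt_irrefl (0 : ℝ))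
      · subst hp
        have hg : h = g := sep h1
        subst hg
        simp only [Set.mem_ofPred_eq, Gd.pt, ← he] at h2 h3 h4 h5 h6
        have hy0 : 0 < y := pos_of_mul_pos_right h4 hepos.le
        have hy1 : y < 1 := by
          by_contra hcon
          push Not at hcon
          nlinarith
        have hya : a < y := lt_of_mul_lt_mul_left h2 hepos.le
        have hyb : y < b := lt_of_mul_lt_mul_left h3 hepos.le
        have hw : 0 < y * (1 - y) := mul_pos hy0 (by linarith)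
        have hw2 : 0 < e * e * (y * (1 - y)) := by positivity
        have e1 : e * (j * (y * (1 - y))) * e - i * (e * y * (e - e * y)) =
            ((j : ℝ) - i) * (e * e * (y * (1 - y))) := by ring
        have e2 : (1 / 2 : ℝ) * (e * y * (e - e * y)) = (1 / 2) * (e * e * (y * (1 - y))) := by ring
        rw [e1, e2, abs_mul, abs_of_pos hw2] at h6
        have h7 : |(j : ℝ) - i| < 1 / 2 := lt_of_mul_lt_mul_right h6 hw2.le
        have hji : j = i := by
          rw [abs_lt] at h7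
          have h8 : (j : ℝ) < i + 1 := by linarith [h7.2]
          have h9 : (i : ℝ) < j + 1 := by linarith [h7.1]
          have h8' : j < i + 1 := by exact_mod_cast h8
          have h9' : i < j + 1 := by exact_mod_cast h9
          omega
        subst hji
        exact ⟨y, hya, hyb, hy0, hy1, hR, rfl⟩
    · rintro ⟨y, hya, hyb, hy0, hy1, hR, rfl⟩
      refine ⟨⟨?_, ?_, ?_, ?_, ?_, ?_⟩, Or.inr ⟨g, i, y, hi, hR, rfl⟩⟩
      · simp only [Set.mem_ofPred_eq, Gd.pt, sub_self, abs_zero]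
        positivity
      · simp only [Set.mem_ofPred_eq, Gd.pt, ← he]
        exact mul_lt_mul_of_pos_left hya hepos
      · simp only [Set.mem_ofPred_eq, Gd.pt, ← he]
        exact mul_lt_mul_of_pos_left hyb hepos
      · simp only [Set.mem_ofPred_eq, Gd.pt, ← he]
        positivity
      · simp only [Set.mem_ofPred_eq, Gd.pt, ← he]
        nlinarith
      · simp only [Set.mem_ofPred_eq, Gd.pt, ← he]
        have e1 : e * (i * (y * (1 - y))) * e - i * (e * y * (e - e * y)) = 0 := by ring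
        rw [e1, abs_zero]
        have : 0 < 1 - y := by linarith
        have e3 : (1 / 2 : ℝ) * (e * y * (e - e * y)) = (1 / 2) * (e * e * (y * (1 - y))) := by ring
        rw [e3]
        positivity

end Pool.Agent.W371.LP
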